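import Mathlib

/-!
# A countable group with property (†) and `2^ℵ₀` automorphisms with a single orbit on special sets

The group is the direct sum of countably many groups of order two.  Two special subsets are carried
to each other by a back-and-forth construction through finite subgroups of `X × X`.
-/

set_option autoImplicit false

namespace Pool.Agent.Results.MP_008109_al.OneOrbit

/-- Property (*): for all finite disjoint vertex sets `U`, `W` some vertex `z` is adjacent to every
vertex of `U` and to no vertex of `W`. -/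
def Star {V : Type} (Γ : SimpleGraph V) : Prop :=
  ∀ U W : Finset V, Disjoint U W → ∃ z : V, (∀ u ∈ U, Γ.Adj z u) ∧ (∀ w ∈ W, ¬ Γ.Adj z w)

/-- The Cayley graph `Γ(X,S)`: `x ~ y` iff `x y⁻¹ ∈ S`. -/
def cayley {X : Type} [Group X] (S : Set X) (h1 : (1 : X) ∉ S) (h2 : ∀ s ∈ S, s⁻¹ ∈ S) :
    SimpleGraph X where
  Adj x y := x * y⁻¹ ∈ S
  symm := by
    constructor
    intro x y hxy
    have := h2 _ hxy
    rwa [mul_inv_rev, inv_inv] at this
  loopless := by
    constructor
    intro x hx
    rw [mul_inv_cancel] at hx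
    exact h1 hx

/-- A subset `S` of a countable group is special if `1 ∉ S`, `S = S⁻¹`, and the Cayley graph
`Γ(X,S)` has property (*), i.e. is isomorphic to the random graph. -/
def Special {X : Type} [Group X] (S : Set X) : Prop :=
  ∃ (h1 : (1 : X) ∉ S) (h2 : ∀ s ∈ S, s⁻¹ ∈ S), Star (cayley S h1 h2)

/-- `T(x,y) = {z : x z⁻¹ = z y⁻¹}` -/
def T {X : Type} [Group X] (x y : X) : Set X := {z | x * z⁻¹ = z * y⁻¹}

/-- Property (†): `X` is not the union of finitely many sets `T(x,y)` with `x ≠ y` together with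
finitely many single elements. -/
def Dagger (X : Type) [Group X] : Prop :=
  ∀ (F : Finset (X × X)) (E : Finset X), (∀ p ∈ F, p.1 ≠ p.2) →
    ∃ z : X, (∀ p ∈ F, z ∉ T p.1 p.2) ∧ z ∉ E

/-- there are witnesses outside every finite set -/
lemma star_avoid {V : Type} [DecidableEq V] (Γ : SimpleGraph V) (hΓ : Star Γ) (U W F : Finset V)
    (hUW : Disjoint U W) : ∃ z : V, z ∉ F ∧ (∀ u ∈ U, Γ.Adj z u) ∧ (∀ w ∈ W, ¬ Γ.Adj z w) := by
  obtain ⟨t, ht, -⟩ := hΓ (U ∪ W ∪ F) ∅ (Finset.disjoint_empty_right _)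
  have htU : t ∉ U := by
    intro h
    exact Γ.loopless.irrefl t (ht t (by simp [h]))
  obtain ⟨z, hz1, hz2⟩ := hΓ U (insert t W) (by
    rw [Finset.disjoint_insert_right]
    exact ⟨htU, hUW⟩)
  refine ⟨z, ?_, hz1, fun w hw => hz2 w (Finset.mem_insert_of_mem hw)⟩
  intro hzF
  exact hz2 t (Finset.mem_insert_self _ _) (ht z (by simp [hzF])).symm

section
variable {X : Type} [CommGroup X]

/-- finite partial isomorphisms, as finite subgroups of `X × X` -/
def Good (S S' : Set X) (P : Subgroup (X × X)) : Prop :=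
  (P : Set (X × X)).Finite ∧ ∀ z ∈ P, (z.1 = 1 ↔ z.2 = 1) ∧ (z.1 ∈ S ↔ z.2 ∈ S')

lemma inv_self (hX : ∀ x : X, x * x = 1) (x : X) : x⁻¹ = x :=
  inv_eq_of_mul_eq_one_left (hX x)

/-- extension of a partial isomorphism to a new element of the domain -/
lemma extend (hX : ∀ x : X, x * x = 1) (S S' : Set X) (hS' : Special S') (P : Subgroup (X × X))
    (hP : Good S S' P) (x : X) :
    ∃ P' : Subgroup (X × X), P ≤ P' ∧ Good S S' P' ∧ ∃ y, (x, y) ∈ P' := by
  classical
  by_cases hx : ∃ y, (x, y) ∈ P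
  · exact ⟨P, le_rfl, hP, hx⟩
  obtain ⟨h1, h2, hst⟩ := hS'
  obtain ⟨hfin, hgood⟩ := hP
  set Pf : Finset (X × X) := hfin.toFinset with hPf
  have hmem : ∀ z, z ∈ Pf ↔ z ∈ P := by
    intro z; rw [hPf, Set.Finite.mem_toFinset]; rfl
  set U : Finset X := (Pf.filter (fun z => x * z.1 ∈ S)).image Prod.snd with hU
  set W : Finset X := (Pf.filter (fun z => x * z.1 ∉ S)).image Prod.snd with hW
  have hdis : Disjoint U W := by
    rw [Finset.disjoint_left]
    intro b hbU hbW
    rw [hU, Finset.mem_image] at hbU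
    rw [hW, Finset.mem_image] at hbW
    obtain ⟨z, hz, hzb⟩ := hbU
    obtain ⟨w, hw, hwb⟩ := hbW
    rw [Finset.mem_filter, hmem] at hz hw
    have hzw := P.mul_mem hz.1 (P.inv_mem hw.1)
    have h3 := (hgood _ hzw).1
    have h4 : (z * w⁻¹).2 = 1 := by
      rw [Prod.snd_mul, Prod.snd_inv, hzb, hwb, mul_inv_cancel]
    have h5 : (z * w⁻¹).1 = 1 := h3.2 h4
    rw [Prod.fst_mul, Prod.fst_inv, mul_inv_eq_one] at h5
    rw [h5] at hz
    exact hw.2 hz.2
  obtain ⟨y, hyF, hyU, hyW⟩ := star_avoid _ hst U W (Pf.image Prod.snd) hdis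
  set g : X × X := (x, y) with hg
  have hgg : g * g = 1 := by
    rw [hg, Prod.mk_mul_mk, hX, hX]; rfl
  have hXX : ∀ z : X × X, z * z = 1 := by
    intro z; ext
    · exact hX _
    · exact hX _
  let P' : Subgroup (X × X) :=
    { carrier := {z | z ∈ P ∨ z * g ∈ P}
      mul_mem' := by
        rintro z w (hz | hz) (hw | hw)
        · left; exact P.mul_mem hz hw
        · right; rw [mul_assoc]; exact P.mul_mem hz hw
        · right
          have : z * w * g = (z * g) * w := by rw [mul_assoc, mul_comm w g, mul_assoc]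
          rw [this]; exact P.mul_mem hz hw
        · left
          have h6 : (z * g) * (w * g) = z * w := by
            rw [mul_mul_mul_comm, hgg, mul_one]
          rw [← h6]; exact P.mul_mem hz hw
      one_mem' := Or.inl P.one_mem
      inv_mem' := by
        intro z hz
        have : z⁻¹ = z := inv_eq_of_mul_eq_one_left (hXX z)
        show z⁻¹ ∈ P ∨ z⁻¹ * g ∈ P
        rw [this]; exact hz }
  have hP'mem : ∀ z, z ∈ P' ↔ (z ∈ P ∨ z * g ∈ P) := fun z => Iff.rfl
  refine ⟨P', fun z hz => Or.inl hz, ⟨?_, ?_⟩, y, ?_⟩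
  · have : (P' : Set (X × X)) ⊆ (P : Set (X × X)) ∪ (fun z => z * g) '' (P : Set (X × X)) := by
      rintro z (hz | hz)
      · left; exact hz
      · right
        exact ⟨z * g, hz, by show z * g * g = z; rw [mul_assoc, hgg, mul_one]⟩
    exact (hfin.union (hfin.image _)).subset this
  · rintro z (hz | hz)
    · exact hgood z hz
    · set a := z.1 * x with ha
      set b := z.2 * y with hb
      have hab : (a, b) ∈ P := hz
      have hza : z.1 = x * a := by
        rw [ha, mul_comm z.1 x, ← mul_assoc, hX, one_mul]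
      have hzb : z.2 = y * b := by
        rw [hb, mul_comm z.2 y, ← mul_assoc, hX, one_mul]
      constructor
      · constructor
        · intro h
          exfalso
          rw [hza] at h
          have : x = a := by rw [← inv_self hX a]; exact eq_inv_of_mul_eq_one_left h
          rw [this] at hx
          exact hx ⟨b, hab⟩
        · intro h
          exfalso
          rw [hzb] at h
          have : y = b := by rw [← inv_self hX b]; exact eq_inv_of_mul_eq_one_left h
          apply hyF
          rw [Finset.mem_image]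
          exact ⟨(a, b), (hmem _).2 hab, this.symm⟩
      · rw [hza, hzb]
        constructor
        · intro h
          have h7 : b ∈ U := by
            rw [hU, Finset.mem_image]
            exact ⟨(a, b), Finset.mem_filter.2 ⟨(hmem _).2 hab, h⟩, rfl⟩
          have h8 : y * b⁻¹ ∈ S' := hyU b h7
          rwa [inv_self hX] at h8
        · intro h
          by_contra h9
          have h7 : b ∈ W := by
            rw [hW, Finset.mem_image]
            exact ⟨(a, b), Finset.mem_filter.2 ⟨(hmem _).2 hab, h9⟩, rfl⟩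
          have h8 : ¬ (y * b⁻¹ ∈ S') := hyW b h7
          rw [inv_self hX] at h8
          exact h8 h
  · right
    show g * g ∈ P
    rw [hgg]; exact P.one_mem

lemma good_swap (S S' : Set X) (P : Subgroup (X × X)) (hP : Good S S' P) :
    Good S' S (P.map (MulEquiv.prodComm : X × X ≃* X × X).toMonoidHom) := by
  obtain ⟨hfin, hgood⟩ := hP
  constructor
  · rw [Subgroup.coe_map]
    exact hfin.image _
  · rintro z hz
    rw [Subgroup.mem_map] at hz
    obtain ⟨w, hw, rfl⟩ := hz
    exact ⟨(hgood w hw).1.symm, (hgood w hw).2.symm⟩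

lemma extend' (hX : ∀ x : X, x * x = 1) (S S' : Set X) (hS : Special S) (P : Subgroup (X × X))
    (hP : Good S S' P) (y : X) :
    ∃ P' : Subgroup (X × X), P ≤ P' ∧ Good S S' P' ∧ ∃ x, (x, y) ∈ P' := by
  obtain ⟨Q, hQ1, hQ2, x, hQ3⟩ := extend hX S' S hS _ (good_swap S S' P hP) y
  refine ⟨Q.map (MulEquiv.prodComm : X × X ≃* X × X).toMonoidHom, ?_, good_swap _ _ Q hQ2, x, ?_⟩
  · intro z hz
    rw [Subgroup.mem_map]
    refine ⟨z.swap, hQ1 ?_, by cases z; rfl⟩
    rw [Subgroup.mem_map]
    exact ⟨z, hz, rfl⟩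
  · rw [Subgroup.mem_map]
    exact ⟨(y, x), hQ3, rfl⟩

/-- Any two special subsets of a countable elementary abelian 2-group are in one orbit. -/
theorem orbit [Countable X] (hX : ∀ x : X, x * x = 1) (S S' : Set X) (hS : Special S)
    (hS' : Special S') : ∃ α : X ≃* X, α '' S = S' := by
  have : Nonempty X := ⟨1⟩
  obtain ⟨f, hf⟩ := exists_surjective_nat X
  have next : ∀ (P : {P : Subgroup (X × X) // Good S S' P}) (n : ℕ),
      ∃ P' : {P : Subgroup (X × X) // Good S S' P},
        P.1 ≤ P'.1 ∧ (∃ y, (f n, y) ∈ P'.1) ∧ (∃ x, (x, f n) ∈ P'.1) := by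
    intro P n
    obtain ⟨Q, hQ1, hQ2, y, hQ3⟩ := extend hX S S' hS' P.1 P.2 (f n)
    obtain ⟨Q', hQ1', hQ2', x, hQ3'⟩ := extend' hX S S' hS Q hQ2 (f n)
    exact ⟨⟨Q', hQ2'⟩, hQ1.trans hQ1', ⟨y, hQ1' hQ3⟩, ⟨x, hQ3'⟩⟩
  choose nxt hn1 hn2 hn3 using next
  have h0 : Good S S' (⊥ : Subgroup (X × X)) := by
    constructor
    · rw [Subgroup.coe_bot]; exact Set.finite_singleton _
    · intro z hz
      rw [Subgroup.mem_bot] at hz
      subst hz
      obtain ⟨h1, -, -⟩ := hS
      obtain ⟨h1', -, -⟩ := hS'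
      exact ⟨⟨fun _ => rfl, fun _ => rfl⟩, ⟨fun h => absurd h h1, fun h => absurd h h1'⟩⟩
  let sq : ℕ → {P : Subgroup (X × X) // Good S S' P} := fun n =>
    Nat.rec ⟨⊥, h0⟩ (fun k P => nxt P k) n
  have hsq : ∀ n, sq (n + 1) = nxt (sq n) n := fun n => rfl
  have hmono : Monotone (fun n => (sq n).1) := by
    apply monotone_nat_of_le_succ
    intro n
    rw [hsq]
    exact hn1 _ _
  have hdom : ∀ x, ∃ y n, (x, y) ∈ (sq n).1 := by
    intro x
    obtain ⟨n, rfl⟩ := hf x
    obtain ⟨y, hy⟩ := hn2 (sq n) n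
    exact ⟨y, n + 1, by rw [hsq]; exact hy⟩
  have hcod : ∀ y, ∃ x n, (x, y) ∈ (sq n).1 := by
    intro y
    obtain ⟨n, rfl⟩ := hf y
    obtain ⟨x, hx⟩ := hn3 (sq n) n
    exact ⟨x, n + 1, by rw [hsq]; exact hx⟩
  choose α nα hα using hdom
  have hfun : ∀ x y n, (x, y) ∈ (sq n).1 → y = α x := by
    intro x y n h
    have e1 := hmono (le_max_left n (nα x)) h
    have e2 := hmono (le_max_right n (nα x)) (hα x)
    have e3 := (sq (max n (nα x))).1.mul_mem e1 ((sq (max n (nα x))).1.inv_mem e2)
    have e4 := ((sq (max n (nα x))).2.2 _ e3).1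
    have e5 : ((x, y) * (x, α x)⁻¹ : X × X).1 = 1 := by
      simp
    have e6 := e4.1 e5
    rwa [Prod.snd_mul, Prod.snd_inv, mul_inv_eq_one] at e6
  have hinj : Function.Injective α := by
    intro x x' hxx
    have e1 := hmono (le_max_left (nα x) (nα x')) (hα x)
    have e2 := hmono (le_max_right (nα x) (nα x')) (hα x')
    have e3 := (sq (max (nα x) (nα x'))).1.mul_mem e1 ((sq (max (nα x) (nα x'))).1.inv_mem e2)
    have e4 := ((sq (max (nα x) (nα x'))).2.2 _ e3).1
    have e5 : ((x, α x) * (x', α x')⁻¹ : X × X).2 = 1 := by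
      simp [hxx]
    have e6 := e4.2 e5
    rwa [Prod.fst_mul, Prod.fst_inv, mul_inv_eq_one] at e6
  have hsurj : Function.Surjective α := by
    intro y
    obtain ⟨x, n, h⟩ := hcod y
    exact ⟨x, (hfun x y n h).symm⟩
  have hmul : ∀ x x', α (x * x') = α x * α x' := by
    intro x x'
    have e1 := hmono (le_max_left (nα x) (nα x')) (hα x)
    have e2 := hmono (le_max_right (nα x) (nα x')) (hα x')
    have e3 := (sq (max (nα x) (nα x'))).1.mul_mem e1 e2
    exact (hfun (x * x') (α x * α x') _ e3).symm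
  have hSS : ∀ x, x ∈ S ↔ α x ∈ S' := fun x => ((sq (nα x)).2.2 _ (hα x)).2
  refine ⟨MulEquiv.mk' (Equiv.ofBijective α ⟨hinj, hsurj⟩) hmul, ?_⟩
  ext y
  constructor
  · rintro ⟨x, hx, rfl⟩
    exact (hSS x).1 hx
  · intro hy
    obtain ⟨x, rfl⟩ := hsurj y
    exact ⟨x, (hSS x).2 hy, rfl⟩

end

/-- the group: the direct sum of countably many groups of order two, written multiplicatively -/
abbrev X0 : Type := Multiplicative (ℕ →₀ ZMod 2)

instance : Countable X0 := inferInstanceAs (Countable (ℕ →₀ ZMod 2))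

lemma X0_sq (x : X0) : x * x = 1 := by
  apply Multiplicative.toAdd.injective
  rw [toAdd_mul, toAdd_one]
  ext i
  rw [Finsupp.add_apply]
  exact CharTwo.add_self_eq_zero _

/-- an enumeration of the finite sets of group elements -/
noncomputable def enum : ℕ → Finset (ℕ →₀ ZMod 2) :=
  (exists_surjective_nat (Finset (ℕ →₀ ZMod 2))).choose

lemma enum_surj : Function.Surjective enum :=
  (exists_surjective_nat (Finset (ℕ →₀ ZMod 2))).choose_spec

/-- an enumeration in which each finite set has arbitrarily large codes -/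
noncomputable def dec (k : ℕ) : Finset (ℕ →₀ ZMod 2) := enum (Nat.unpair k).1

/-- a special subset -/
def S0 : Set X0 :=
  {x | ∃ (k : ℕ) (u : ℕ →₀ ZMod 2), u ∈ dec k ∧ (∀ i, k ≤ i → u i = 0) ∧
    Multiplicative.toAdd x = Finsupp.single k 1 + u}

lemma S0_one : (1 : X0) ∉ S0 := by
  rintro ⟨k, u, -, hu, h⟩
  have h1 := DFunLike.congr_fun h k
  rw [toAdd_one, Finsupp.add_apply, Finsupp.single_eq_same, hu k le_rfl] at h1
  simp at h1

lemma S0_inv : ∀ s ∈ S0, s⁻¹ ∈ S0 := by
  intro s hs
  rwa [inv_self X0_sq]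

lemma S0_special : Special S0 := by
  refine ⟨S0_one, S0_inv, ?_⟩
  intro U W hUW
  obtain ⟨a, ha⟩ := enum_surj (U.image Multiplicative.toAdd)
  -- a bound for all supports
  obtain ⟨b, hb⟩ : ∃ b : ℕ, ∀ x ∈ U ∪ W, ∀ i, b ≤ i → (Multiplicative.toAdd x) i = 0 := by
    refine ⟨((U ∪ W).sup (fun x => (Multiplicative.toAdd x).support.sup id)) + 1, ?_⟩
    intro x hx i hi
    by_contra hne
    have h1 : i ∈ (Multiplicative.toAdd x).support := Finsupp.mem_support_iff.2 hne
    have h2 : i ≤ (Multiplicative.toAdd x).support.sup id := Finset.le_sup (f := id) h1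
    have h3 : (Multiplicative.toAdd x).support.sup id ≤
        (U ∪ W).sup (fun x => (Multiplicative.toAdd x).support.sup id) :=
      Finset.le_sup (f := fun x : X0 => (Multiplicative.toAdd x).support.sup id) hx
    omega
  set k : ℕ := Nat.pair a b with hk
  have hbk : b ≤ k := Nat.right_le_pair a b
  have hdec : dec k = U.image Multiplicative.toAdd := by
    rw [dec, hk, Nat.unpair_pair]; exact ha
  have hsum : ∀ x : X0, Multiplicative.toAdd (Multiplicative.ofAdd (Finsupp.single k (1 : ZMod 2)) *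
      x⁻¹) = Finsupp.single k 1 + Multiplicative.toAdd x := by
    intro x
    rw [inv_self X0_sq, toAdd_mul, toAdd_ofAdd]
  refine ⟨Multiplicative.ofAdd (Finsupp.single k 1), ?_, ?_⟩
  · intro u hu
    refine ⟨k, Multiplicative.toAdd u, ?_, ?_, hsum u⟩
    · rw [hdec]; exact Finset.mem_image_of_mem _ hu
    · intro i hi
      exact hb u (Finset.mem_union_left _ hu) i (hbk.trans hi)
  · intro w hw hadj
    obtain ⟨k', u', hu', hz', he⟩ := hadj
    rw [hsum w] at he
    have hwz : ∀ i, k ≤ i → (Multiplicative.toAdd w) i = 0 := fun i hi =>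
      hb w (Finset.mem_union_right _ hw) i (hbk.trans hi)
    rcases lt_trichotomy k k' with hlt | heq | hgt
    · have h1 := DFunLike.congr_fun he k'
      rw [Finsupp.add_apply, Finsupp.add_apply, Finsupp.single_eq_same,
        Finsupp.single_eq_of_ne (by omega), hwz k' hlt.le, hz' k' le_rfl] at h1
      simp at h1
    · subst heq
      have h2 : Multiplicative.toAdd w = u' := add_left_cancel he
      rw [← h2, hdec, Finset.mem_image] at hu'
      obtain ⟨v, hv, hvw⟩ := hu'
      have : v = w := Multiplicative.toAdd.injective hvw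
      rw [this] at hv
      exact Finset.disjoint_left.1 hUW hv hw
    · have h1 := DFunLike.congr_fun he k
      rw [Finsupp.add_apply, Finsupp.add_apply, Finsupp.single_eq_same,
        Finsupp.single_eq_of_ne (by omega), hwz k le_rfl, hz' k hgt.le] at h1
      simp at h1

lemma X0_infinite : Infinite X0 := by
  have : Infinite (ℕ →₀ ZMod 2) := inferInstance
  exact this

lemma dagger : Dagger X0 := by
  intro F E hF
  have := X0_infinite
  obtain ⟨z, hz⟩ := Infinite.exists_notMem_finset E
  refine ⟨z, ?_, hz⟩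
  intro p hp hz'
  apply hF p hp
  have h1 : p.1 * z⁻¹ = z * p.2⁻¹ := hz'
  rw [inv_self X0_sq, inv_self X0_sq, mul_comm z] at h1
  exact mul_right_cancel h1

lemma card_aut : Cardinal.mk (X0 ≃* X0) = Cardinal.continuum := by
  apply le_antisymm
  · have h1 : Cardinal.mk (X0 ≃* X0) ≤ Cardinal.mk (X0 → X0) :=
      Cardinal.mk_le_of_injective (f := fun e => (e : X0 → X0)) DFunLike.coe_injective
    refine h1.trans ?_
    have h2 : Cardinal.mk X0 = Cardinal.aleph0 := by
      have := X0_infinite
      exact Cardinal.mk_eq_aleph0 X0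
    rw [← Cardinal.power_def, h2]
    exact (Cardinal.aleph0_power_aleph0).le
  · have h3 : Cardinal.mk (Equiv.Perm ℕ) = Cardinal.continuum := by
      rw [Cardinal.mk_perm_eq_two_power, Cardinal.mk_nat, Cardinal.two_power_aleph0]
    rw [← h3]
    let F : Equiv.Perm ℕ → (X0 ≃* X0) := fun e =>
      AddEquiv.toMultiplicative (Finsupp.domCongr e : (ℕ →₀ ZMod 2) ≃+ (ℕ →₀ ZMod 2))
    apply Cardinal.mk_le_of_injective (f := F)
    intro e e' h
    ext i
    have h4 := DFunLike.congr_fun h (Multiplicative.ofAdd (Finsupp.single i (1 : ZMod 2)))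
    have h5 : (Finsupp.domCongr e : (ℕ →₀ ZMod 2) ≃+ (ℕ →₀ ZMod 2)) (Finsupp.single i (1 : ZMod 2)) =
      (Finsupp.domCongr e' : (ℕ →₀ ZMod 2) ≃+ (ℕ →₀ ZMod 2)) (Finsupp.single i (1 : ZMod 2)) := h4
    simp only [Finsupp.domCongr_apply, Finsupp.equivMapDomain_single] at h5
    exact Finsupp.single_left_injective one_ne_zero h5

/-- **Negative answer to Q1.** There is a countable group `X` with property (†) and with
`2^ℵ₀` automorphisms which has a special subset and for which any two special subsets lie in one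
orbit of `Aut(X)`: the number of orbits is one. -/
theorem result : ∃ (X : Type) (_ : Group X),
    Countable X ∧ Dagger X ∧ Cardinal.mk (X ≃* X) = Cardinal.continuum ∧
    (∃ S : Set X, Special S) ∧
    (∀ S S' : Set X, Special S → Special S' → ∃ α : X ≃* X, α '' S = S') :=
  ⟨X0, inferInstance, inferInstance, dagger, card_aut, ⟨S0, S0_special⟩,
    fun S S' hS hS' => orbit X0_sq S S' hS hS'⟩

end Pool.Agent.Results.MP_008109_al.OneOrbit
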